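import Pool.Agent.helper56.P2B.SpecD

/-!
# Project p2b: NM1, normalisation at the earlier place
-/

set_option autoImplicit false

open Complex Metric Set Filter Topology MeasureTheory
open Pool.Agent.helper98.ILF
open WP (it)
open HY (UD T S hd UN RM)
open PM
open PL (TP LO PZ GJ INR PG DK ht tr DI CY SUBH hG hq BJ)
open P2 (SS FLS FL CLS FR TL)

noncomputable section

namespace P2B

/-- **NM1** -/
theorem NM1 (hTDF : TDF_stmt) (hEXT : PL.EXT_stmt) : NM1_stmt := by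
  intro Ω Ω' G G' κ a b hG hG' hL θ hθ σ hσ z hz hz'
  obtain ⟨⟨c, e, hc, h1⟩, h2, h3⟩ := hσ
  have ha : (a : ℂ) ≠ 0 := by exact_mod_cast hL.a0
  have hκ : (κ : ℂ) ≠ 0 := by exact_mod_cast hL.k0.ne'
  have hinv : ∀ w, θ⁻¹ w = (w - b) / (a : ℂ) := by
    intro w
    have h4 : θ (θ⁻¹ w) = w := by simp
    rw [hθ] at h4
    rw [eq_div_iff ha]
    linear_combination h4
  have hval : ∀ w, θ (σ (θ⁻¹ w)) = (c : ℂ) * w + ((a : ℂ) * e + b - c * b) := by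
    intro w
    rw [hθ, h1, hinv]
    field_simp
    ring
  have hop : IsOpen Ω := (hTDF Ω hG.dd).1
  refine hEXT Ω G hG c ((a : ℂ) * e + b - c * b) z hc hz (by rw [← hval]; exact hz') ?_ (θ * σ * θ⁻¹) (fun ζ => ?_)
  · have e1 : ∀ᶠ w in 𝓝 z, w ∈ Ω := hop.mem_nhds hz
    have hcont : Continuous fun w : ℂ => (c : ℂ) * w + ((a : ℂ) * e + b - c * b) := by fun_prop
    have e2 : ∀ᶠ w in 𝓝 z, (c : ℂ) * w + ((a : ℂ) * e + b - c * b) ∈ Ω :=
      hcont.continuousAt.eventually_mem (hop.mem_nhds (by rw [← hval]; exact hz'))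
    filter_upwards [e1, e2] with w hw hw'
    rw [← hval] at hw' ⊢
    obtain ⟨M, hM, hM2⟩ := hL.eq
    -- the two points of `Ω'`
    have k1 : (a : ℂ) * ((κ : ℂ) * ((κ : ℂ)⁻¹ * θ⁻¹ w)) + b = w := by
      rw [mul_inv_cancel_left₀ hκ, ← hθ]
      simp
    have k2 : (a : ℂ) * ((κ : ℂ) * ((κ : ℂ)⁻¹ * σ (θ⁻¹ w))) + b = θ (σ (θ⁻¹ w)) := by
      rw [mul_inv_cancel_left₀ hκ, ← hθ]
    have m1 : (κ : ℂ)⁻¹ * θ⁻¹ w ∈ Ω' := (hL.iff _).1 (by rw [k1]; exact hw)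
    have m2 : (κ : ℂ)⁻¹ * σ (θ⁻¹ w) ∈ Ω' := (hL.iff _).1 (by rw [k2]; exact hw')
    have m3 : θ⁻¹ w ∈ Ω := by
      have := hL.sub _ m1
      rwa [mul_inv_cancel_left₀ hκ] at this
    have k3 := hL.jn _ m2 _ m1 (by
      rw [mul_inv_cancel_left₀ hκ, mul_inv_cancel_left₀ hκ]
      exact h3 _ m3)
    rw [hM2 _ m1, hM2 _ m2, k1, k2] at k3
    exact hM (hG.map hw') (hG.map hw) k3
  · exact hval ζ

end P2B
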